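import Mathlib
import Pool.Agent.U485.PT.Bound

/-!
# Mean squares over well-spaced points for almost every polynomial twist: dyadic blocks
-/

set_option autoImplicit false

namespace Pool.Agent.U332.PW

open Finset MeasureTheory Pool.Agent.U485.PT

/-- one term -/
noncomputable def tm (d : ℕ) (β : Fin d → ℝ) (t : ℝ) (n : ℕ) : ℂ :=
  Complex.exp (Complex.I * ((pha d β (fun j => (n : ℤ) ^ (j.val + 1)) + t * Real.log n : ℝ) : ℂ))

lemma norm_tm (d : ℕ) (β : Fin d → ℝ) (t : ℝ) (n : ℕ) : ‖tm d β t n‖ = 1 := by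
  unfold tm
  rw [mul_comm, Complex.norm_exp_ofReal_mul_I]

/-- the full polynomial -/
noncomputable def DF (d N : ℕ) (a : ℕ → ℂ) (β : Fin d → ℝ) (t : ℝ) : ℂ :=
  ∑ n ∈ Icc 1 N, a n * tm d β t n

/-- the coefficients of a block -/
noncomputable def blk (a : ℕ → ℂ) (N j n : ℕ) : ℂ :=
  if n ∈ Ioc (N / 2 ^ (j + 1)) (N / 2 ^ j) then a n else 0

lemma blk_le {a : ℕ → ℂ} (ha : ∀ n, ‖a n‖ ≤ 1) (N j n : ℕ) : ‖blk a N j n‖ ≤ 1 := by
  unfold blk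
  split_ifs
  · exact ha n
  · simp

lemma DT_blk (d : ℕ) (a : ℕ → ℂ) (β : Fin d → ℝ) (t : ℝ) (N j : ℕ) :
    DT d (N / 2 ^ (j + 1) + 1) (blk a N j) β t =
      ∑ n ∈ Ioc (N / 2 ^ (j + 1)) (N / 2 ^ j), a n * tm d β t n := by
  unfold DT
  symm
  have hsub : Ioc (N / 2 ^ (j + 1)) (N / 2 ^ j) ⊆
      Icc (N / 2 ^ (j + 1) + 1) (2 * (N / 2 ^ (j + 1) + 1)) := by
    intro n hn
    rw [mem_Ioc] at hn
    rw [mem_Icc]
    refine ⟨hn.1, ?_⟩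
    have h1 : N / 2 ^ (j + 1) = N / 2 ^ j / 2 := by
      rw [Nat.div_div_eq_div_mul, pow_succ]
    omega
  have h2 : ∑ n ∈ Ioc (N / 2 ^ (j + 1)) (N / 2 ^ j), a n * tm d β t n =
      ∑ n ∈ Ioc (N / 2 ^ (j + 1)) (N / 2 ^ j), blk a N j n * tm d β t n := by
    refine sum_congr rfl fun n hn => ?_
    unfold blk
    rw [if_pos hn]
  rw [h2]
  refine sum_subset hsub fun n _ hn => ?_
  unfold blk
  rw [if_neg hn, zero_mul]

lemma split (g : ℕ → ℂ) (N J : ℕ) : ∑ n ∈ Ioc 0 N, g n = ∑ n ∈ Ioc 0 (N / 2 ^ J), g n +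
    ∑ j ∈ range J, ∑ n ∈ Ioc (N / 2 ^ (j + 1)) (N / 2 ^ j), g n := by
  induction J with
  | zero => simp
  | succ J ih =>
    rw [ih, sum_range_succ]
    have h1 : N / 2 ^ (J + 1) ≤ N / 2 ^ J :=
      Nat.div_le_div_left (Nat.pow_le_pow_right (by norm_num) (Nat.le_succ J)) (by positivity)
    have h2 : Ioc 0 (N / 2 ^ J) = Ioc 0 (N / 2 ^ (J + 1)) ∪ Ioc (N / 2 ^ (J + 1)) (N / 2 ^ J) :=
      (Ioc_union_Ioc_eq_Ioc (Nat.zero_le _) h1).symm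
    have h3 : Disjoint (Ioc 0 (N / 2 ^ (J + 1))) (Ioc (N / 2 ^ (J + 1)) (N / 2 ^ J)) := by
      rw [Finset.disjoint_left]
      intro n hn hn'
      rw [mem_Ioc] at hn hn'
      omega
    rw [h2, sum_union h3]
    ring

/-- The splitting of the square of the norm. -/
lemma norm_sq_le (d N J : ℕ) (hJ : N < (2 ^ J) ^ 2) {a : ℕ → ℂ} (ha : ∀ n, ‖a n‖ ≤ 1)
    (β : Fin d → ℝ) (t : ℝ) : ‖DF d N a β t‖ ^ 2 ≤ 2 * N + 2 * J *
      ∑ j ∈ range J, ‖DT d (N / 2 ^ (j + 1) + 1) (blk a N j) β t‖ ^ 2 := by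
  have h0 : DF d N a β t = ∑ n ∈ Ioc 0 (N / 2 ^ J), a n * tm d β t n +
      ∑ j ∈ range J, DT d (N / 2 ^ (j + 1) + 1) (blk a N j) β t := by
    unfold DF
    have h1 : Icc 1 N = Ioc 0 N := by
      ext n
      simp [Nat.succ_le_iff]
    rw [h1, split (fun n => a n * tm d β t n) N J]
    congr 1
    exact sum_congr rfl fun j _ => (DT_blk d a β t N j).symm
  have h1 : ‖∑ n ∈ Ioc 0 (N / 2 ^ J), a n * tm d β t n‖ ≤ ((N / 2 ^ J : ℕ) : ℝ) := by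
    refine (norm_sum_le _ _).trans ?_
    calc ∑ n ∈ Ioc 0 (N / 2 ^ J), ‖a n * tm d β t n‖ ≤ ∑ n ∈ Ioc 0 (N / 2 ^ J), (1 : ℝ) := by
          refine sum_le_sum fun n _ => ?_
          rw [norm_mul, norm_tm, mul_one]
          exact ha n
      _ = _ := by simp
  have h2 : ((N / 2 ^ J : ℕ) : ℝ) ^ 2 ≤ N := by
    have h3 : (N / 2 ^ J) ^ 2 ≤ N := by
      set P := 2 ^ J with hP
      have h4 : N / P * P ≤ N := Nat.div_mul_le_self N P
      have h5 : N / P < P := Nat.div_lt_of_lt_mul (by nlinarith)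
      calc (N / P) ^ 2 = N / P * (N / P) := by ring
        _ ≤ N / P * P := Nat.mul_le_mul_left _ h5.le
        _ ≤ N := h4
    exact_mod_cast h3
  have h3 : ‖∑ n ∈ Ioc 0 (N / 2 ^ J), a n * tm d β t n‖ ^ 2 ≤ N :=
    (pow_le_pow_left₀ (norm_nonneg _) h1 2).trans h2
  have h4 : ‖∑ j ∈ range J, DT d (N / 2 ^ (j + 1) + 1) (blk a N j) β t‖ ^ 2 ≤
      J * ∑ j ∈ range J, ‖DT d (N / 2 ^ (j + 1) + 1) (blk a N j) β t‖ ^ 2 := by
    refine (pow_le_pow_left₀ (norm_nonneg _) (norm_sum_le _ _) 2).trans ?_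
    have := sq_sum_le_card_mul_sum_sq (s := range J)
      (f := fun j => ‖DT d (N / 2 ^ (j + 1) + 1) (blk a N j) β t‖)
    simpa using this
  rw [h0]
  set x := ∑ n ∈ Ioc 0 (N / 2 ^ J), a n * tm d β t n
  set y := ∑ j ∈ range J, DT d (N / 2 ^ (j + 1) + 1) (blk a N j) β t
  have h5 : ‖x + y‖ ^ 2 ≤ 2 * ‖x‖ ^ 2 + 2 * ‖y‖ ^ 2 := by
    have h6 := norm_add_le x y
    nlinarith [sq_nonneg (‖x‖ - ‖y‖), norm_nonneg x, norm_nonneg y, norm_nonneg (x + y)]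
  calc ‖x + y‖ ^ 2 ≤ 2 * ‖x‖ ^ 2 + 2 * ‖y‖ ^ 2 := h5
    _ ≤ 2 * N + 2 * (J * ∑ j ∈ range J, ‖DT d (N / 2 ^ (j + 1) + 1) (blk a N j) β t‖ ^ 2) := by
        linarith
    _ = _ := by ring

/-- Hölder for one block. -/
lemma holder (d : ℕ) (W : Finset ℝ) (f : ℝ → ℝ) (hf : ∀ t ∈ W, 0 ≤ f t) (M T ε : ℝ) (hM : 1 ≤ M)
    (hT : 0 ≤ T) (hε : 0 < ε)
    (h : ∑ t ∈ W, f t ^ (d + 1) ≤ 2 * M ^ (((d + 1 : ℕ) : ℝ) + ε) * T) :
    ∑ t ∈ W, f t ≤ 2 * M ^ (1 + ε) * (((W.card : ℝ) ^ d * T) ^ ((((d + 1 : ℕ) : ℝ))⁻¹)) := by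
  have hS0 : 0 ≤ ∑ t ∈ W, f t := sum_nonneg hf
  have hM0 : 0 < M := by linarith
  have h1 : (∑ t ∈ W, f t) ^ (d + 1) ≤ (W.card : ℝ) ^ d * ∑ t ∈ W, f t ^ (d + 1) := by
    rcases W.eq_empty_or_nonempty with rfl | hW
    · simp
    · have h2 := pow_sum_div_card_le_sum_pow (s := W) (f := f) hf d
      have h3 : (0 : ℝ) < (W.card : ℝ) ^ d := by
        have : 0 < W.card := card_pos.2 hW
        positivity
      rw [div_le_iff₀ h3] at h2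
      linarith
  have h2 : (∑ t ∈ W, f t) ^ (d + 1) ≤ (2 * M ^ (1 + ε)) ^ (d + 1) * ((W.card : ℝ) ^ d * T) := by
    refine h1.trans ?_
    calc (W.card : ℝ) ^ d * ∑ t ∈ W, f t ^ (d + 1)
        ≤ (W.card : ℝ) ^ d * (2 * M ^ (((d + 1 : ℕ) : ℝ) + ε) * T) := by gcongr
      _ = (2 * M ^ (((d + 1 : ℕ) : ℝ) + ε)) * ((W.card : ℝ) ^ d * T) := by ring
      _ ≤ (2 * M ^ (1 + ε)) ^ (d + 1) * ((W.card : ℝ) ^ d * T) := by
          refine mul_le_mul_of_nonneg_right ?_ (by positivity)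
          rw [mul_pow, ← Real.rpow_natCast (M ^ (1 + ε)), ← Real.rpow_mul hM0.le]
          have h3 : (2 : ℝ) ≤ 2 ^ (d + 1) := by
            calc (2 : ℝ) = 2 ^ 1 := by norm_num
              _ ≤ 2 ^ (d + 1) := pow_le_pow_right₀ (by norm_num) (by omega)
          have h4 : M ^ (((d + 1 : ℕ) : ℝ) + ε) ≤ M ^ ((1 + ε) * ((d + 1 : ℕ) : ℝ)) := by
            refine Real.rpow_le_rpow_of_exponent_le hM ?_
            have h5 : (1 : ℝ) ≤ ((d + 1 : ℕ) : ℝ) := by exact_mod_cast Nat.succ_pos d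
            nlinarith
          exact mul_le_mul h3 h4 (by positivity) (by positivity)
  have h3 : ∑ t ∈ W, f t = ((∑ t ∈ W, f t) ^ (d + 1)) ^ ((((d + 1 : ℕ) : ℝ))⁻¹) :=
    (Real.pow_rpow_inv_natCast hS0 (Nat.succ_ne_zero d)).symm
  have h4 : ((∑ t ∈ W, f t) ^ (d + 1)) ^ ((((d + 1 : ℕ) : ℝ))⁻¹) ≤
      ((2 * M ^ (1 + ε)) ^ (d + 1) * ((W.card : ℝ) ^ d * T)) ^ ((((d + 1 : ℕ) : ℝ))⁻¹) :=
    Real.rpow_le_rpow (pow_nonneg hS0 _) h2 (inv_nonneg.2 (Nat.cast_nonneg _))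
  rw [h3]
  refine h4.trans (le_of_eq ?_)
  have e0 : 0 ≤ 2 * M ^ (1 + ε) := mul_nonneg (by norm_num) (Real.rpow_nonneg hM0.le _)
  have e1 : 0 ≤ (2 * M ^ (1 + ε)) ^ (d + 1) := pow_nonneg e0 _
  have e2 : 0 ≤ (W.card : ℝ) ^ d * T := mul_nonneg (pow_nonneg (Nat.cast_nonneg _) _) hT
  rw [Real.mul_rpow e1 e2, Real.pow_rpow_inv_natCast e0 (Nat.succ_ne_zero d)]

lemma pow_half (N : ℕ) (hN : 1 ≤ N) : ∃ J : ℕ, 1 ≤ J ∧ N < (2 ^ J) ^ 2 ∧ (2 ^ J) ^ 2 ≤ 4 * N ∧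
    (J : ℝ) ≤ Real.log N / Real.log 2 + 1 := by
  set L := Nat.log 2 N with hL
  have h1 : 2 ^ L ≤ N := Nat.pow_log_le_self 2 (by omega)
  have h2 : N < 2 ^ (L + 1) := Nat.lt_pow_succ_log_self (by norm_num) N
  have hl2 : 0 < Real.log 2 := Real.log_pos (by norm_num)
  refine ⟨L / 2 + 1, by omega, ?_, ?_, ?_⟩
  · rw [← pow_mul]
    exact lt_of_lt_of_le h2 (Nat.pow_le_pow_right (by norm_num) (by omega))
  · rw [← pow_mul]
    have h3 : 2 ^ ((L / 2 + 1) * 2) ≤ 2 ^ (L + 2) := Nat.pow_le_pow_right (by norm_num) (by omega)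
    have h4 : 2 ^ (L + 2) = 4 * 2 ^ L := by ring
    omega
  · have h3 : (L : ℝ) * Real.log 2 ≤ Real.log N := by
      rw [← Real.log_pow]
      apply Real.log_le_log (by positivity)
      exact_mod_cast h1
    have h4 : (L : ℝ) ≤ Real.log N / Real.log 2 := by rwa [le_div_iff₀ hl2]
    have h5 : ((L / 2 + 1 : ℕ) : ℝ) ≤ (L : ℝ) + 1 := by
      have : L / 2 + 1 ≤ L + 1 := by omega
      exact_mod_cast this
    linarith

/-- the mean square bound, for all `T` and all well-spaced points -/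
def MeanGood (d N : ℕ) (a : ℕ → ℂ) (A ε C : ℝ) (β : Fin d → ℝ) : Prop :=
  ∀ T : ℝ, (N : ℝ) ≤ T → T ≤ (N : ℝ) ^ A → ∀ W : Finset ℝ, (∀ t ∈ W, 0 ≤ t ∧ t ≤ T) →
    (∀ t ∈ W, ∀ s ∈ W, t ≠ s → 1 ≤ |t - s|) →
      ∑ t ∈ W, ‖DF d N a β t‖ ^ 2 ≤ C * (N : ℝ) ^ (1 + ε) *
        ((W.card : ℝ) + ((W.card : ℝ) ^ d * T) ^ ((((d + 1 : ℕ) : ℝ))⁻¹))

theorem good_of_blocks (d N J : ℕ) (hN : 16 ≤ N) (hJ1 : N < (2 ^ J) ^ 2)
    (hJ2 : (2 ^ J) ^ 2 ≤ 4 * N) {a : ℕ → ℂ} (ha : ∀ n, ‖a n‖ ≤ 1) (A ε C : ℝ) (hA : 1 ≤ A)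
    (hε : 0 < ε) (hC : 2 + 4 * (J : ℝ) ^ 2 ≤ C * (N : ℝ) ^ ε) (β : Fin d → ℝ)
    (h : ∀ j < J, MomentsGood d (N / 2 ^ (j + 1) + 1) (blk a N j) (4 * A) ε β) :
    MeanGood d N a A (2 * ε) C β := by
  intro T hT1 hT2 W hW hsep
  have hN1 : (1 : ℝ) ≤ N := by exact_mod_cast (by omega : 1 ≤ N)
  have hN0 : (0 : ℝ) < N := by linarith
  have hT0 : 0 < T := by linarith
  set P : ℝ := ((W.card : ℝ) ^ d * T) ^ ((((d + 1 : ℕ) : ℝ))⁻¹) with hP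
  have hP0 : 0 ≤ P := Real.rpow_nonneg (by positivity) _
  have hblock : ∀ j ∈ range J, ∑ t ∈ W, ‖DT d (N / 2 ^ (j + 1) + 1) (blk a N j) β t‖ ^ 2 ≤
      2 * (N : ℝ) ^ (1 + ε) * P := by
    intro j hj
    have hjJ : j < J := mem_range.1 hj
    set M : ℕ := N / 2 ^ (j + 1) + 1 with hM
    have hMN : M ≤ N := by
      have h1 : N / 2 ^ (j + 1) ≤ N / 2 := by
        apply Nat.div_le_div_left _ (by norm_num)
        calc 2 = 2 ^ 1 := by norm_num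
          _ ≤ 2 ^ (j + 1) := Nat.pow_le_pow_right (by norm_num) (by omega)
      omega
    have hM4 : N < 4 * M ^ 2 := by
      have h1 : N < M * 2 ^ (j + 1) := by
        have := Nat.lt_div_mul_add (a := N) (b := 2 ^ (j + 1)) (by positivity)
        rw [hM, add_mul, one_mul]
        exact this
      have h2 : 2 ^ (j + 1) ≤ 2 ^ J := Nat.pow_le_pow_right (by norm_num) (by omega)
      have h3 : N < M * 2 ^ J := lt_of_lt_of_le h1 (Nat.mul_le_mul_left M h2)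
      have h4 : N ^ 2 < (M * 2 ^ J) ^ 2 := Nat.pow_lt_pow_left h3 (by norm_num)
      have h5 : (M * 2 ^ J) ^ 2 ≤ M ^ 2 * (4 * N) := by
        rw [mul_pow]
        exact Nat.mul_le_mul_left _ hJ2
      nlinarith
    have hM2 : 2 ≤ M := by
      by_contra hlt
      have : M ≤ 1 := by omega
      have h3 : M ^ 2 ≤ 1 := by nlinarith
      omega
    have hMr : (2 : ℝ) ≤ M := by exact_mod_cast hM2
    have hM0 : (0 : ℝ) < M := by linarith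
    have hNM : (N : ℝ) ≤ (M : ℝ) ^ (4 : ℝ) := by
      have h1 : (N : ℝ) ≤ 4 * (M : ℝ) ^ 2 := by exact_mod_cast hM4.le
      have h2 : (M : ℝ) ^ (4 : ℝ) = (M : ℝ) ^ 4 := by
        rw [← Real.rpow_natCast]; norm_num
      have h3 : (4 : ℝ) ≤ (M : ℝ) ^ 2 := by nlinarith
      have h4 : (M : ℝ) ^ 4 = (M : ℝ) ^ 2 * (M : ℝ) ^ 2 := by ring
      rw [h2, h4]
      nlinarith
    have hT3 : T ≤ (M : ℝ) ^ (4 * A) := by
      refine hT2.trans ?_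
      rw [Real.rpow_mul hM0.le]
      exact Real.rpow_le_rpow hN0.le hNM (by linarith)
    have hT4 : (M : ℝ) ≤ T := by
      have : (M : ℝ) ≤ N := by exact_mod_cast hMN
      linarith
    have h1 := h j hjJ T hT4 hT3 W hW hsep
    have h2 := holder d W (fun t => ‖DT d M (blk a N j) β t‖ ^ 2) (fun t _ => by positivity)
      (M : ℝ) T ε (by linarith) hT0.le hε (by
        simp only [← pow_mul]
        exact h1)
    refine h2.trans ?_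
    refine mul_le_mul_of_nonneg_right ?_ hP0
    refine mul_le_mul_of_nonneg_left ?_ (by norm_num)
    exact Real.rpow_le_rpow hM0.le (by exact_mod_cast hMN) (by linarith)
  have h1 : ∑ t ∈ W, ‖DF d N a β t‖ ^ 2 ≤ ∑ t ∈ W, (2 * (N : ℝ) + 2 * J *
      ∑ j ∈ range J, ‖DT d (N / 2 ^ (j + 1) + 1) (blk a N j) β t‖ ^ 2) :=
    sum_le_sum fun t _ => norm_sq_le d N J hJ1 ha β t
  rw [sum_add_distrib, sum_const, nsmul_eq_mul, ← mul_sum, sum_comm] at h1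
  have h2 := sum_le_sum hblock
  rw [sum_const, card_range, nsmul_eq_mul] at h2
  have hN3 : (N : ℝ) ^ (1 + 2 * ε) = (N : ℝ) ^ (1 + ε) * (N : ℝ) ^ ε := by
    rw [← Real.rpow_add hN0]; congr 1; ring
  have hN4 : (N : ℝ) ≤ (N : ℝ) ^ (1 + ε) := by
    calc (N : ℝ) = (N : ℝ) ^ (1 : ℝ) := (Real.rpow_one _).symm
      _ ≤ _ := Real.rpow_le_rpow_of_exponent_le hN1 (by linarith)
  have hJ0 : (0 : ℝ) ≤ J := Nat.cast_nonneg J
  have hc0 : (0 : ℝ) ≤ W.card := Nat.cast_nonneg _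
  have hE0 : (0 : ℝ) < (N : ℝ) ^ (1 + ε) := Real.rpow_pos_of_pos hN0 _
  calc ∑ t ∈ W, ‖DF d N a β t‖ ^ 2
      ≤ (W.card : ℝ) * (2 * N) + 2 * J * (J * (2 * (N : ℝ) ^ (1 + ε) * P)) := by
        refine h1.trans ?_
        have := mul_le_mul_of_nonneg_left h2 (by positivity : (0 : ℝ) ≤ 2 * J)
        linarith
    _ ≤ (2 + 4 * (J : ℝ) ^ 2) * (N : ℝ) ^ (1 + ε) * ((W.card : ℝ) + P) := by
        have e1 : (W.card : ℝ) * (2 * N) ≤ 2 * (N : ℝ) ^ (1 + ε) * W.card := by nlinarith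
        have e2 : 2 * (J : ℝ) * (J * (2 * (N : ℝ) ^ (1 + ε) * P)) =
            4 * (J : ℝ) ^ 2 * (N : ℝ) ^ (1 + ε) * P := by ring
        have e3 : 0 ≤ 4 * (J : ℝ) ^ 2 * (N : ℝ) ^ (1 + ε) * W.card := by positivity
        have e4 : 0 ≤ 2 * (N : ℝ) ^ (1 + ε) * P := by positivity
        rw [e2]
        linarith
    _ ≤ (C * (N : ℝ) ^ ε) * (N : ℝ) ^ (1 + ε) * ((W.card : ℝ) + P) := by
        refine mul_le_mul_of_nonneg_right (mul_le_mul_of_nonneg_right hC hE0.le) (by positivity)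
    _ = C * (N : ℝ) ^ (1 + 2 * ε) * ((W.card : ℝ) + P) := by rw [hN3]; ring

lemma J_bound (δ : ℝ) (hδ : 0 < δ) : ∃ C : ℝ, 1 ≤ C ∧ ∀ (N J : ℕ), 1 ≤ N →
    (J : ℝ) ≤ Real.log N / Real.log 2 + 1 → (J : ℝ) ≤ C * (N : ℝ) ^ δ := by
  have hl2 : 0 < Real.log 2 := Real.log_pos (by norm_num)
  refine ⟨1 / (δ * Real.log 2) + 1, by
    have : 0 ≤ 1 / (δ * Real.log 2) := by positivity
    linarith, ?_⟩
  intro N J hN hJ
  have hN1 : (1 : ℝ) ≤ N := by exact_mod_cast hN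
  have h1 := Pool.Agent.U485.PT.log_le N δ hN1 hδ
  have h2 : (1 : ℝ) ≤ (N : ℝ) ^ δ := Real.one_le_rpow hN1 hδ.le
  have h3 : Real.log N / Real.log 2 ≤ (1 / (δ * Real.log 2)) * (N : ℝ) ^ δ := by
    rw [div_le_iff₀ hl2]
    refine h1.trans (le_of_eq ?_)
    field_simp
  linarith

theorem main (d : ℕ) (A ε : ℝ) (hA : 1 ≤ A) (hε : 0 < ε) : ∃ C c : ℝ, 0 < C ∧ 0 < c ∧
    ∀ N : ℕ, 1 ≤ N → ∀ a : ℕ → ℂ, (∀ n, ‖a n‖ ≤ 1) →
      volume {β | β ∈ Set.Icc (0 : Fin d → ℝ) 1 ∧ ¬ MeanGood d N a A ε C β} ≤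
        ENNReal.ofReal (C * (N : ℝ) ^ (-c)) := by
  obtain ⟨C₀, hC₀, hmain⟩ := Pool.Agent.U485.PT.main d (4 * A) (ε / 2) (by linarith) (by positivity)
  obtain ⟨C₁, hC₁, hJ₁⟩ := J_bound (ε / 4) (by positivity)
  obtain ⟨C₂, hC₂, hJ₂⟩ := J_bound (ε / 16) (by positivity)
  set C : ℝ := 16 + 6 * C₁ ^ 2 + C₂ * C₀ * 4 ^ (ε / 8) with hC
  have hC0 : 0 < C := by positivity
  refine ⟨C, ε / 16, hC0, by positivity, ?_⟩
  intro N hN a ha
  have hN1 : (1 : ℝ) ≤ N := by exact_mod_cast hN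
  have hN0 : (0 : ℝ) < N := by linarith
  by_cases hN16 : N < 16
  · -- small `N`
    have hempty : {β | β ∈ Set.Icc (0 : Fin d → ℝ) 1 ∧ ¬ MeanGood d N a A ε C β} = ∅ := by
      rw [Set.eq_empty_iff_forall_notMem]
      rintro β ⟨-, hβ⟩
      apply hβ
      intro T hT1 hT2 W hW hsep
      have h16 : (N : ℝ) ≤ 16 := by exact_mod_cast hN16.le
      have h1 : ∀ t ∈ W, ‖DF d N a β t‖ ^ 2 ≤ 16 * N := by
        intro t _
        have h2 : ‖DF d N a β t‖ ≤ N := by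
          unfold DF
          refine (norm_sum_le _ _).trans ?_
          calc ∑ n ∈ Icc 1 N, ‖a n * tm d β t n‖ ≤ ∑ n ∈ Icc 1 N, (1 : ℝ) := by
                refine sum_le_sum fun n _ => ?_
                rw [norm_mul, norm_tm, mul_one]
                exact ha n
            _ = _ := by simp
        nlinarith [norm_nonneg (DF d N a β t)]
      have h2 := sum_le_sum h1
      rw [sum_const, nsmul_eq_mul] at h2
      have hN4 : (N : ℝ) ≤ (N : ℝ) ^ (1 + ε) := by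
        calc (N : ℝ) = (N : ℝ) ^ (1 : ℝ) := (Real.rpow_one _).symm
          _ ≤ _ := Real.rpow_le_rpow_of_exponent_le hN1 (by linarith)
      have hC16 : 16 ≤ C := by
        rw [hC]
        have : 0 ≤ 6 * C₁ ^ 2 + C₂ * C₀ * 4 ^ (ε / 8) := by positivity
        linarith
      have hP0 : 0 ≤ ((W.card : ℝ) ^ d * T) ^ ((((d + 1 : ℕ) : ℝ))⁻¹) :=
        Real.rpow_nonneg (mul_nonneg (pow_nonneg (Nat.cast_nonneg _) _) (by linarith)) _
      have hc0 : (0 : ℝ) ≤ W.card := Nat.cast_nonneg _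
      have hE0 : (0 : ℝ) < (N : ℝ) ^ (1 + ε) := Real.rpow_pos_of_pos hN0 _
      calc ∑ t ∈ W, ‖DF d N a β t‖ ^ 2 ≤ W.card * (16 * N) := h2
        _ = 16 * N * W.card := by ring
        _ ≤ C * (N : ℝ) ^ (1 + ε) * W.card := by
            refine mul_le_mul_of_nonneg_right ?_ hc0
            exact mul_le_mul hC16 hN4 hN0.le hC0.le
        _ ≤ _ := mul_le_mul_of_nonneg_left (by linarith) (by positivity)
    rw [hempty]
    simp
  · have hN16' : 16 ≤ N := by omega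
    obtain ⟨J, hJ0, hJ1, hJ2, hJ3⟩ := pow_half N hN
    have hJa := hJ₁ N J hN hJ3
    have hJb := hJ₂ N J hN hJ3
    have hsub : {β | β ∈ Set.Icc (0 : Fin d → ℝ) 1 ∧ ¬ MeanGood d N a A ε C β} ⊆
        ⋃ j ∈ range J, {β | β ∈ Set.Icc (0 : Fin d → ℝ) 1 ∧
          ¬ MomentsGood d (N / 2 ^ (j + 1) + 1) (blk a N j) (4 * A) (ε / 2) β} := by
      rintro β ⟨hβ1, hβ2⟩
      by_contra hcon
      apply hβ2
      have h1 : ∀ j < J, MomentsGood d (N / 2 ^ (j + 1) + 1) (blk a N j) (4 * A) (ε / 2) β := by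
        intro j hj
        by_contra h2
        apply hcon
        rw [Set.mem_iUnion₂]
        exact ⟨j, mem_range.2 hj, hβ1, h2⟩
      have h2 := good_of_blocks d N J hN16' hJ1 hJ2 ha A (ε / 2) C hA (by positivity) (by
        have h3 : (J : ℝ) ^ 2 ≤ C₁ ^ 2 * (N : ℝ) ^ (ε / 2) := by
          have h4 : (J : ℝ) ^ 2 ≤ (C₁ * (N : ℝ) ^ (ε / 4)) ^ 2 :=
            pow_le_pow_left₀ (Nat.cast_nonneg _) hJa 2
          have h5 : ((N : ℝ) ^ (ε / 4)) ^ 2 = (N : ℝ) ^ (ε / 2) := by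
            rw [← Real.rpow_natCast, ← Real.rpow_mul hN0.le]; congr 1; push_cast; ring
          rwa [mul_pow, h5] at h4
        have h6 : (1 : ℝ) ≤ (N : ℝ) ^ (ε / 2) := Real.one_le_rpow hN1 (by positivity)
        have h7 : 2 + 4 * C₁ ^ 2 ≤ C := by
          rw [hC]
          have : 0 ≤ C₂ * C₀ * 4 ^ (ε / 8) := by positivity
          nlinarith
        calc 2 + 4 * (J : ℝ) ^ 2 ≤ 2 * (N : ℝ) ^ (ε / 2) + 4 * (C₁ ^ 2 * (N : ℝ) ^ (ε / 2)) := by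
              linarith
          _ = (2 + 4 * C₁ ^ 2) * (N : ℝ) ^ (ε / 2) := by ring
          _ ≤ C * (N : ℝ) ^ (ε / 2) := mul_le_mul_of_nonneg_right h7 (by linarith)) β h1
      have h3 : 2 * (ε / 2) = ε := by ring
      rwa [h3] at h2
    refine (measure_mono hsub).trans ((measure_biUnion_finset_le _ _).trans ?_)
    have hblock : ∀ j ∈ range J, volume {β | β ∈ Set.Icc (0 : Fin d → ℝ) 1 ∧
          ¬ MomentsGood d (N / 2 ^ (j + 1) + 1) (blk a N j) (4 * A) (ε / 2) β} ≤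
        ENNReal.ofReal (C₀ * 4 ^ (ε / 8) * (N : ℝ) ^ (-(ε / 8))) := by
      intro j hj
      have hjJ : j < J := mem_range.1 hj
      refine (hmain (N / 2 ^ (j + 1) + 1) (Nat.le_add_left 1 _) (blk a N j) (blk_le ha N j)).trans ?_
      apply ENNReal.ofReal_le_ofReal
      set M : ℕ := N / 2 ^ (j + 1) + 1 with hM
      have hM4 : N < 4 * M ^ 2 := by
        have h1 : N < M * 2 ^ (j + 1) := by
          have := Nat.lt_div_mul_add (a := N) (b := 2 ^ (j + 1)) (by positivity)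
          rw [hM, add_mul, one_mul]
          exact this
        have h2 : 2 ^ (j + 1) ≤ 2 ^ J := Nat.pow_le_pow_right (by norm_num) (by omega)
        have h3 : N < M * 2 ^ J := lt_of_lt_of_le h1 (Nat.mul_le_mul_left M h2)
        have h4 : N ^ 2 < (M * 2 ^ J) ^ 2 := Nat.pow_lt_pow_left h3 (by norm_num)
        have h5 : (M * 2 ^ J) ^ 2 ≤ M ^ 2 * (4 * N) := by
          rw [mul_pow]
          exact Nat.mul_le_mul_left _ hJ2
        nlinarith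
      have hM1' : 1 ≤ M := Nat.le_add_left 1 _
      have hM1 : (1 : ℝ) ≤ M := by exact_mod_cast hM1'
      have hM0 : (0 : ℝ) < M := by linarith
      have h1 : (N : ℝ) / 4 ≤ (M : ℝ) ^ 2 := by
        have : (N : ℝ) ≤ 4 * (M : ℝ) ^ 2 := by exact_mod_cast hM4.le
        linarith
      have h2 : (M : ℝ) ^ (-(ε / 2 / 2)) = ((M : ℝ) ^ 2) ^ (-(ε / 8)) := by
        rw [← Real.rpow_natCast, ← Real.rpow_mul hM0.le]
        congr 1; push_cast; ring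
      have h3 : ((M : ℝ) ^ 2) ^ (-(ε / 8)) ≤ ((N : ℝ) / 4) ^ (-(ε / 8)) :=
        Real.rpow_le_rpow_of_nonpos (by positivity) h1 (by linarith)
      have h4 : ((N : ℝ) / 4) ^ (-(ε / 8)) = 4 ^ (ε / 8) * (N : ℝ) ^ (-(ε / 8)) := by
        rw [Real.div_rpow hN0.le (by norm_num), Real.rpow_neg (by norm_num : (0 : ℝ) ≤ 4)]
        field_simp
      rw [h2, mul_assoc, ← h4]
      exact mul_le_mul_of_nonneg_left h3 hC₀.le
    refine (sum_le_sum hblock).trans ?_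
    rw [sum_const, card_range, nsmul_eq_mul, ← ENNReal.ofReal_natCast,
      ← ENNReal.ofReal_mul (Nat.cast_nonneg _)]
    apply ENNReal.ofReal_le_ofReal
    have h1 : (N : ℝ) ^ (-(ε / 16)) = (N : ℝ) ^ (ε / 16) * (N : ℝ) ^ (-(ε / 8)) := by
      rw [← Real.rpow_add hN0]; congr 1; ring
    have h2 : 0 ≤ C₀ * 4 ^ (ε / 8) * (N : ℝ) ^ (-(ε / 8)) := by positivity
    have h3 : C₂ * C₀ * 4 ^ (ε / 8) ≤ C := by
      rw [hC]
      have : 0 ≤ 6 * C₁ ^ 2 := by positivity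
      linarith
    calc (J : ℝ) * (C₀ * 4 ^ (ε / 8) * (N : ℝ) ^ (-(ε / 8)))
        ≤ (C₂ * (N : ℝ) ^ (ε / 16)) * (C₀ * 4 ^ (ε / 8) * (N : ℝ) ^ (-(ε / 8))) :=
          mul_le_mul_of_nonneg_right hJb h2
      _ = (C₂ * C₀ * 4 ^ (ε / 8)) * ((N : ℝ) ^ (ε / 16) * (N : ℝ) ^ (-(ε / 8))) := by ring
      _ = (C₂ * C₀ * 4 ^ (ε / 8)) * (N : ℝ) ^ (-(ε / 16)) := by rw [← h1]
      _ ≤ C * (N : ℝ) ^ (-(ε / 16)) :=
          mul_le_mul_of_nonneg_right h3 (Real.rpow_nonneg hN0.le _)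

end Pool.Agent.U332.PW
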